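import Pool.Agent.Q155.HookTwo.Defs

/-!
Total number of hooks of length two over the `t`-regular partitions of `n`.
`hooksTwo p` (in `Pool.Agent.Q155.HookTwo.Defs`) is the number of cells of `p` of hook length `2`.
-/

namespace Q155.HookT

open Q155.HookTwo

/-- The `t`-regular partitions of `n`: no part is divisible by `t`. -/
def regular (t n : ℕ) : Finset n.Partition := Finset.univ.filter fun p => ∀ x ∈ p.parts, ¬ t ∣ x

/-- `b_{t,2}(n)`. -/
def b2 (t n : ℕ) : ℕ := ∑ p ∈ regular t n, hooksTwo p

end Q155.HookT
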