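import Mathlib
import Pool.Agent.Q155.HookTwo.Hooks
import Pool.Agent.Q155.HookT.Defs
import Pool.Agent.Q155.QI.Basic

open Finset PowerSeries

namespace Q155.HookT

open Q155.HookTwo Q155.QI

/-- Multisets with all elements in `A` and sum `n` (for `0 ∉ A`). -/
noncomputable def PM (A : Finset ℕ) (n : ℕ) : Finset (Multiset ℕ) :=
  ((Finset.univ : Finset n.Partition).filter fun p => ∀ x ∈ p.parts, x ∈ A).image fun p => p.parts

theorem mem_PM {A : Finset ℕ} (hA : 0 ∉ A) {n : ℕ} {s : Multiset ℕ} :
    s ∈ PM A n ↔ (∀ x ∈ s, x ∈ A) ∧ s.sum = n := by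
  unfold PM
  simp only [mem_image, mem_filter, mem_univ, true_and]
  constructor
  · rintro ⟨p, hp, rfl⟩
    exact ⟨hp, p.parts_sum⟩
  · rintro ⟨h1, h2⟩
    refine ⟨⟨s, fun {i} hi => ?_, h2⟩, h1, rfl⟩
    rcases Nat.eq_zero_or_pos i with h | h
    · subst h
      exact absurd (h1 0 hi) hA
    · exact h

theorem card_shift {A : Finset ℕ} (hA : 0 ∉ A) (n : ℕ) {u : Multiset ℕ} (hu : ∀ x ∈ u, x ∈ A) :
    ((PM A n).filter (u ≤ ·)).card = if u.sum ≤ n then (PM A (n - u.sum)).card else 0 := by
  classical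
  split_ifs with h
  · have : (PM A n).filter (u ≤ ·) = (PM A (n - u.sum)).image (· + u) := by
      ext s
      simp only [mem_filter, mem_image, mem_PM hA]
      constructor
      · rintro ⟨⟨h1, h2⟩, h3⟩
        refine ⟨s - u, ⟨?_, ?_⟩, Multiset.sub_add_cancel h3⟩
        · exact fun x hx => h1 x (Multiset.mem_of_le (Multiset.sub_le_self _ _) hx)
        · have := congrArg Multiset.sum (Multiset.sub_add_cancel h3)
          rw [Multiset.sum_add] at this
          omega
      · rintro ⟨t, ⟨h1, h2⟩, rfl⟩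
        refine ⟨⟨?_, ?_⟩, Multiset.le_add_left _ _⟩
        · intro x hx
          rcases Multiset.mem_add.1 hx with h3 | h3
          · exact h1 x h3
          · exact hu x h3
        · rw [Multiset.sum_add]; omega
    rw [this, card_image_of_injective]
    intro a b hab
    exact add_right_cancel hab
  · rw [card_eq_zero, filter_eq_empty_iff]
    intro s hs hus
    have h1 := ((mem_PM hA).1 hs).2
    obtain ⟨t, rfl⟩ := Multiset.le_iff_exists_add.1 hus
    rw [Multiset.sum_add] at h1
    omega

/-- Generating function of multisets with elements in `A`. -/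
noncomputable def GA (A : Finset ℕ) : PowerSeries ℚ := PowerSeries.mk fun n => ((PM A n).card : ℚ)

theorem mk_shift {A : Finset ℕ} (hA : 0 ∉ A) {u : Multiset ℕ} (hu : ∀ x ∈ u, x ∈ A) :
    (PowerSeries.mk fun n => (((PM A n).filter (u ≤ ·)).card : ℚ)) = X ^ u.sum * GA A := by
  ext n
  rw [coeff_mk, coeff_X_pow_mul', card_shift hA n hu]
  unfold GA
  split_ifs
  · rw [coeff_mk]
  · simp

theorem GA_insert {A : Finset ℕ} (hA : 0 ∉ A) {a : ℕ} (ha0 : 0 < a) (ha : a ∉ A) :
    (1 - X ^ a) * GA (insert a A) = GA A := by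
  classical
  have hA' : 0 ∉ insert a A := by
    rw [mem_insert, not_or]
    exact ⟨by omega, hA⟩
  have hu : ∀ x ∈ ({a} : Multiset ℕ), x ∈ insert a A := by
    intro x hx
    rw [Multiset.mem_singleton] at hx
    subst hx
    exact mem_insert_self _ _
  have h := mk_shift hA' hu
  rw [Multiset.sum_singleton] at h
  have h2 : (1 - X ^ a) * GA (insert a A) = GA (insert a A) - X ^ a * GA (insert a A) := by
    ring
  rw [h2, ← h]
  ext n
  unfold GA
  rw [map_sub, coeff_mk, coeff_mk, coeff_mk]
  have h3 : (PM A n) = (PM (insert a A) n).filter (fun s => ¬ ({a} : Multiset ℕ) ≤ s) := by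
    ext s
    simp only [mem_filter, mem_PM hA, mem_PM hA', Multiset.singleton_le]
    constructor
    · rintro ⟨h1, h2⟩
      refine ⟨⟨fun x hx => mem_insert_of_mem (h1 x hx), h2⟩, ?_⟩
      intro hx
      exact ha (h1 _ hx)
    · rintro ⟨⟨h1, h2⟩, h3⟩
      refine ⟨fun x hx => ?_, h2⟩
      rcases mem_insert.1 (h1 x hx) with h4 | h4
      · subst h4
        exact absurd hx h3
      · exact h4
  have h4 := Finset.card_filter_add_card_filter_not (s := PM (insert a A) n)
    (fun s => ({a} : Multiset ℕ) ≤ s)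
  rw [← h3] at h4
  rw [← h4]
  push_cast
  ring

theorem GA_empty : GA ∅ = 1 := by
  ext n
  unfold GA
  rw [coeff_mk, coeff_one]
  have hmem : ∀ s : Multiset ℕ, s ∈ PM ∅ n ↔ s = 0 ∧ n = 0 := by
    intro s
    rw [mem_PM (by simp)]
    constructor
    · rintro ⟨h1, h2⟩
      have hs : s = 0 := by
        apply Multiset.eq_zero_of_forall_notMem
        intro x hx
        exact absurd (h1 x hx) (by simp)
      subst hs
      exact ⟨rfl, by simpa using h2.symm⟩
    · rintro ⟨rfl, rfl⟩
      simp
  by_cases hn : n = 0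
  · have : PM ∅ n = {0} := by
      ext s; rw [hmem, mem_singleton]; simp [hn]
    rw [this]; simp [hn]
  · have : PM ∅ n = ∅ := by
      ext s; rw [hmem]; simp [hn]
    rw [this]; simp [hn]

theorem GA_eq (A : Finset ℕ) (hA : 0 ∉ A) : GA A = ∏ a ∈ A, (1 - X ^ a)⁻¹ := by
  classical
  induction A using Finset.induction_on with
  | empty => rw [GA_empty, prod_empty]
  | insert a A ha ih =>
    rw [mem_insert, not_or] at hA
    have h1 := GA_insert hA.2 (by omega) ha
    have h2 := one_sub_mul_inv (k := a) (by omega)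
    rw [prod_insert ha, ← ih hA.2, ← h1]
    calc GA (insert a A) = ((1 - X ^ a) * (1 - X ^ a)⁻¹) * GA (insert a A) := by
          rw [h2, one_mul]
      _ = _ := by ring

/-- The truncated set of allowed parts. -/
def AT (t M : ℕ) : Finset ℕ := (Icc 1 M).filter fun s => ¬ t ∣ s

theorem mem_AT {t M s : ℕ} : s ∈ AT t M ↔ (1 ≤ s ∧ s ≤ M) ∧ ¬ t ∣ s := by
  unfold AT
  rw [mem_filter, mem_Icc]

theorem zero_notMem_AT (t M : ℕ) : 0 ∉ AT t M := by
  rw [mem_AT]
  omega

/-- The polynomial counting the two kinds of hooks. -/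
noncomputable def beta (A : Finset ℕ) : PowerSeries ℚ :=
  ∑ s ∈ A.filter (2 ≤ ·), X ^ s - ∑ s ∈ A.filter (fun s => s - 1 ∈ A), X ^ (s + (s - 1)) +
    ∑ s ∈ A, X ^ (s + s)

theorem le_pair {s t : ℕ} (hst : s ≠ t) (u : Multiset ℕ) :
    ({s, t} : Multiset ℕ) ≤ u ↔ s ∈ u ∧ t ∈ u := by
  constructor
  · intro h
    exact ⟨Multiset.mem_of_le h (by simp), Multiset.mem_of_le h (by simp)⟩
  · rintro ⟨h1, h2⟩
    rw [Multiset.le_iff_count]
    intro a
    have e : ({s, t} : Multiset ℕ) = s ::ₘ {t} := rfl
    have h3 := Multiset.count_pos.2 h1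
    have h4 := Multiset.count_pos.2 h2
    rw [e, Multiset.count_cons, Multiset.count_singleton]
    split_ifs with h5 h6 h6
    · omega
    · subst h5
      omega
    · subst h6
      omega
    · omega

theorem le_double {s : ℕ} (u : Multiset ℕ) : ({s, s} : Multiset ℕ) ≤ u ↔ 2 ≤ u.count s := by
  have e : ({s, s} : Multiset ℕ) = Multiset.replicate 2 s := rfl
  rw [e, Multiset.le_count_iff_replicate_le]

theorem S_count {A : Finset ℕ} (hA : 0 ∉ A) {u : Multiset ℕ} (hu : ∀ x ∈ u, x ∈ A) :
    (((S1 u).card + (S2 u).card : ℕ) : ℚ) =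
      ∑ s ∈ A.filter (2 ≤ ·), (if ({s} : Multiset ℕ) ≤ u then 1 else 0) -
      ∑ s ∈ A.filter (fun s => s - 1 ∈ A), (if ({s, s - 1} : Multiset ℕ) ≤ u then 1 else 0) +
      ∑ s ∈ A, (if ({s, s} : Multiset ℕ) ≤ u then 1 else 0) := by
  classical
  have e1 : (S1 u).card + (A.filter (fun s => s - 1 ∈ A ∧ s ∈ u ∧ s - 1 ∈ u)).card =
      (A.filter (fun s => 2 ≤ s ∧ s ∈ u)).card := by
    rw [← card_union_of_disjoint]
    · congr 1
      ext s
      simp only [S1, mem_union, mem_filter, Multiset.mem_toFinset]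
      constructor
      · rintro (⟨h1, h2, h3⟩ | ⟨h1, h2, h3, h4⟩)
        · exact ⟨hu s h1, h2, h1⟩
        · refine ⟨h1, ?_, h3⟩
          by_contra hlt
          have : s - 1 = 0 := by omega
          rw [this] at h2
          exact hA h2
      · rintro ⟨h1, h2, h3⟩
        by_cases h4 : s - 1 ∈ u
        · right
          exact ⟨h1, hu _ h4, h3, h4⟩
        · left
          exact ⟨h3, h2, h4⟩
    · rw [Finset.disjoint_left]
      intro s hs hs'
      simp only [S1, mem_filter, Multiset.mem_toFinset] at hs hs'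
      exact hs.2.2 hs'.2.2.2
  have e2 : ∑ s ∈ A.filter (2 ≤ ·), (if ({s} : Multiset ℕ) ≤ u then (1 : ℚ) else 0) =
      ((A.filter (fun s => 2 ≤ s ∧ s ∈ u)).card : ℚ) := by
    rw [← Finset.filter_filter, card_filter]
    push_cast
    exact sum_congr rfl fun s _ => if_congr Multiset.singleton_le rfl rfl
  have e3 : ∑ s ∈ A.filter (fun s => s - 1 ∈ A),
      (if ({s, s - 1} : Multiset ℕ) ≤ u then (1 : ℚ) else 0) =
      ((A.filter (fun s => s - 1 ∈ A ∧ s ∈ u ∧ s - 1 ∈ u)).card : ℚ) := by
    rw [← Finset.filter_filter, card_filter]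
    push_cast
    refine sum_congr rfl fun s hs => ?_
    rw [mem_filter] at hs
    have hne : s ≠ s - 1 := by
      rintro h
      have : s = 0 := by omega
      subst this
      exact hA hs.1
    exact if_congr (le_pair hne u) rfl rfl
  have e4 : ∑ s ∈ A, (if ({s, s} : Multiset ℕ) ≤ u then (1 : ℚ) else 0) =
      ((S2 u).card : ℚ) := by
    have h : S2 u = A.filter (fun s => 2 ≤ u.count s) := by
      ext s
      simp only [S2, mem_filter, Multiset.mem_toFinset]
      constructor
      · rintro ⟨h1, h2⟩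
        exact ⟨hu s h1, h2⟩
      · rintro ⟨h1, h2⟩
        exact ⟨Multiset.count_pos.1 (by omega), h2⟩
    rw [h, card_filter]
    push_cast
    exact sum_congr rfl fun s _ => if_congr (le_double u) rfl rfl
  rw [e2, e3, e4]
  have e5 : (((S1 u).card : ℕ) : ℚ) +
      ((A.filter (fun s => s - 1 ∈ A ∧ s ∈ u ∧ s - 1 ∈ u)).card : ℚ) =
      ((A.filter (fun s => 2 ≤ s ∧ s ∈ u)).card : ℚ) := by exact_mod_cast e1
  push_cast
  linarith

theorem b2_eq {t n M : ℕ} (hM : n ≤ M) : (b2 t n : ℚ) = coeff n (beta (AT t M) * GA (AT t M)) := by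
  classical
  set A := AT t M with hA
  have hA0 : 0 ∉ A := zero_notMem_AT t M
  have h1 : (b2 t n : ℚ) = ∑ u ∈ PM A n, (((S1 u).card + (S2 u).card : ℕ) : ℚ) := by
    unfold b2
    push_cast
    refine sum_bij (fun p _ => p.parts) ?_ ?_ ?_ ?_
    · intro p hp
      simp only [regular, mem_filter, mem_univ, true_and] at hp
      rw [mem_PM hA0]
      refine ⟨?_, p.parts_sum⟩
      intro x hx
      rw [hA, mem_AT]
      have := p.le_of_mem_parts hx
      have := p.parts_pos hx
      exact ⟨⟨by omega, by omega⟩, hp x hx⟩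
    · intro p _ q _ h
      exact Nat.Partition.ext h
    · intro u hu
      have hu' := (mem_PM hA0).1 hu
      unfold PM at hu
      rw [mem_image] at hu
      obtain ⟨p, hp, rfl⟩ := hu
      refine ⟨p, ?_, rfl⟩
      simp only [regular, mem_filter, mem_univ, true_and]
      intro x hx
      have := hu'.1 x hx
      rw [hA, mem_AT] at this
      exact this.2
    · intro p _
      rw [hooksTwo_eq]
      push_cast
      rfl
  rw [h1, sum_congr rfl (fun u hu => S_count hA0 ((mem_PM hA0).1 hu).1), sum_add_distrib,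
    sum_sub_distrib]
  unfold beta
  rw [add_mul, sub_mul, map_add, map_sub]
  congr 1
  · congr 1
    · rw [sum_mul, map_sum, sum_comm]
      refine sum_congr rfl fun s hs => ?_
      rw [mem_filter] at hs
      have h2 := mk_shift hA0 (u := {s}) (by
        intro x hx
        rw [Multiset.mem_singleton] at hx
        subst hx
        exact hs.1)
      rw [Multiset.sum_singleton] at h2
      rw [← h2, coeff_mk, card_filter]
      push_cast
      rfl
    · rw [sum_mul, map_sum, sum_comm]
      refine sum_congr rfl fun s hs => ?_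
      rw [mem_filter] at hs
      have h2 := mk_shift hA0 (u := {s, s - 1}) (by
        intro x hx
        rw [Multiset.insert_eq_cons, Multiset.mem_cons, Multiset.mem_singleton] at hx
        rcases hx with rfl | rfl
        · exact hs.1
        · exact hs.2)
      rw [Multiset.insert_eq_cons, Multiset.sum_cons, Multiset.sum_singleton] at h2
      rw [← h2, coeff_mk, card_filter]
      push_cast
      rfl
  · rw [sum_mul, map_sum, sum_comm]
    refine sum_congr rfl fun s hs => ?_
    have h2 := mk_shift hA0 (u := {s, s}) (by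
      intro x hx
      rw [Multiset.insert_eq_cons, Multiset.mem_cons, Multiset.mem_singleton] at hx
      rcases hx with rfl | rfl <;> exact hs)
    rw [Multiset.insert_eq_cons, Multiset.sum_cons, Multiset.sum_singleton] at h2
    rw [← h2, coeff_mk, card_filter]
    push_cast
    rfl

end Q155.HookT
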