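import Pool.Agent.Q155.HookT.Series

open Finset PowerSeries

namespace Q155.HookT

open Q155.QI

/-- The coefficients of the series `B_t`. -/
def Bc (t m : ℕ) : ℚ :=
  (if 2 ≤ m ∧ ¬ t ∣ m then 1 else 0) -
    (if m % 2 = 1 ∧ 3 ≤ m ∧ ¬ t ∣ (m + 1) / 2 ∧ ¬ t ∣ (m - 1) / 2 then 1 else 0) +
    (if m % 2 = 0 ∧ 0 < m ∧ ¬ t ∣ m / 2 then 1 else 0)

theorem coeff_sum_X {S : Finset ℕ} (g : ℕ → ℕ) (m : ℕ) (hg : Set.InjOn g (S : Set ℕ)) :
    coeff m (∑ s ∈ S, (X : PowerSeries ℚ) ^ g s) = if ∃ s ∈ S, g s = m then 1 else 0 := by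
  classical
  rw [map_sum]
  simp only [coeff_X_pow]
  split_ifs with h
  · obtain ⟨s, hs, hsm⟩ := h
    rw [Finset.sum_eq_single s]
    · rw [if_pos hsm.symm]
    · intro b hb hbs
      rw [if_neg]
      intro h
      exact hbs (hg hb hs (by rw [hsm, h]))
    · intro h
      exact absurd hs h
  · apply Finset.sum_eq_zero
    intro s hs
    rw [if_neg]
    intro h'
    exact h ⟨s, hs, h'.symm⟩

theorem coeff_beta {t M m : ℕ} (hm : m ≤ M) : coeff m (beta (AT t M)) = Bc t m := by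
  classical
  unfold beta
  rw [map_add, map_sub, coeff_sum_X (fun s => s) m (fun x _ y _ h => h),
    coeff_sum_X (fun s => s + (s - 1)) m (by
      intro x hx y hy h
      have hx' := mem_AT.1 (mem_filter.1 (mem_coe.1 hx)).1
      have hy' := mem_AT.1 (mem_filter.1 (mem_coe.1 hy)).1
      beta_reduce at h
      omega),
    coeff_sum_X (fun s => s + s) m (by
      intro x _ y _ h
      beta_reduce at h
      omega)]
  unfold Bc
  congr 1
  · congr 1
    · apply if_congr _ rfl rfl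
      constructor
      · rintro ⟨s, hs, rfl⟩
        rw [mem_filter, mem_AT] at hs
        exact ⟨hs.2, hs.1.2⟩
      · rintro ⟨h1, h2⟩
        refine ⟨m, ?_, rfl⟩
        rw [mem_filter, mem_AT]
        exact ⟨⟨⟨by omega, hm⟩, h2⟩, h1⟩
    · apply if_congr _ rfl rfl
      constructor
      · rintro ⟨s, hs, hsm⟩
        rw [mem_filter, mem_AT, mem_AT] at hs
        have e1 : (m + 1) / 2 = s := by omega
        have e2 : (m - 1) / 2 = s - 1 := by omega
        rw [e1, e2]
        exact ⟨by omega, by omega, hs.1.2, hs.2.2⟩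
      · rintro ⟨h1, h2, h3, h4⟩
        refine ⟨(m + 1) / 2, ?_, by omega⟩
        have e2 : (m + 1) / 2 - 1 = (m - 1) / 2 := by omega
        rw [mem_filter, mem_AT, mem_AT, e2]
        exact ⟨⟨⟨by omega, by omega⟩, h3⟩, ⟨by omega, by omega⟩, h4⟩
  · apply if_congr _ rfl rfl
    constructor
    · rintro ⟨s, hs, hsm⟩
      rw [mem_AT] at hs
      have e1 : m / 2 = s := by omega
      rw [e1]
      exact ⟨by omega, by omega, hs.2⟩
    · rintro ⟨h1, h2, h3⟩
      refine ⟨m / 2, ?_, by omega⟩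
      rw [mem_AT]
      exact ⟨⟨by omega, by omega⟩, h3⟩

theorem coeff_bb {t : ℕ} (ht : 1 ≤ t) (m : ℕ) : coeff m (bb t) =
    2 * (if m % 2 = 0 ∧ 2 ≤ m ∧ m + 2 ≤ 2 * t then 1 else 0) - (if m = t then 1 else 0) +
      (if m = 2 * t - 1 then 1 else 0) + (if m = 2 * t + 1 then 1 else 0) := by
  classical
  have h1 : (2 * (X ^ 2 * gs 2 (t - 1)) : PowerSeries ℚ) =
      (∑ s ∈ range (t - 1), X ^ (2 + 2 * s)) + ∑ s ∈ range (t - 1), X ^ (2 + 2 * s) := by
    unfold gs
    rw [mul_sum]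
    have : ∀ i : ℕ, (X ^ 2 * X ^ (2 * i) : PowerSeries ℚ) = X ^ (2 + 2 * i) := fun i => by
      rw [pow_add]
    simp only [this]
    ring
  unfold bb
  rw [h1, map_add, map_add, map_sub, map_add, coeff_sum_X (fun s => 2 + 2 * s) m (by
    intro x _ y _ h
    beta_reduce at h
    omega)]
  simp only [coeff_X_pow]
  have h2 : (∃ s ∈ range (t - 1), 2 + 2 * s = m) ↔ (m % 2 = 0 ∧ 2 ≤ m ∧ m + 2 ≤ 2 * t) := by
    constructor
    · rintro ⟨s, hs, rfl⟩
      rw [mem_range] at hs
      omega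
    · rintro ⟨h1, h2, h3⟩
      exact ⟨(m - 2) / 2, by rw [mem_range]; omega, by omega⟩
  simp only [h2]
  ring

theorem dvd_small {t x : ℕ} (hx : x < t) : t ∣ x ↔ x = 0 := by
  constructor
  · intro h
    by_contra hne
    have := Nat.le_of_dvd (Nat.pos_of_ne_zero hne) h
    omega
  · rintro rfl
    exact dvd_zero t

theorem dvd_small2 {t x : ℕ} (hx : x < 2 * t) : t ∣ x ↔ x = 0 ∨ x = t := by
  constructor
  · rintro ⟨c, rfl⟩
    have h1 : c < 2 := by
      by_contra h
      have : t * 2 ≤ t * c := Nat.mul_le_mul_left t (by omega)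
      omega
    interval_cases c
    · left; omega
    · right; omega
  · rintro (rfl | rfl)
    · exact dvd_zero t
    · exact dvd_refl x

theorem Bc_series {t : ℕ} (ht : 3 ≤ t) :
    (1 - X ^ (2 * t)) * PowerSeries.mk (Bc t) = bb t := by
  ext m
  rw [coeff_bb (by omega), sub_mul, one_mul, map_sub, coeff_X_pow_mul', coeff_mk]
  rcases Nat.lt_or_ge m (2 * t) with h | h
  · rw [if_neg (by omega)]
    unfold Bc
    simp only [dvd_small2 h, dvd_small (show m / 2 < t by omega),
      dvd_small (show (m - 1) / 2 < t by omega), dvd_small2 (show (m + 1) / 2 < 2 * t by omega)]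
    rw [if_neg (show ¬ (m = 2 * t + 1) by omega)]
    rcases Nat.mod_two_eq_zero_or_one m with hp | hp
    · simp only [hp, zero_ne_one, false_and, if_false, true_and]
      rw [if_neg (show ¬ (m = 2 * t - 1) by omega)]
      split_ifs <;> first | (exfalso; omega) | norm_num
    · simp only [hp, one_ne_zero, false_and, if_false, true_and]
      split_ifs <;> first | (exfalso; omega) | norm_num
  · rw [if_pos h, coeff_mk]
    obtain ⟨k, rfl⟩ : ∃ k, m = k + 2 * t := ⟨m - 2 * t, by omega⟩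
    have e0 : k + 2 * t - 2 * t = k := by omega
    have e1 : (k + 2 * t) / 2 = k / 2 + t := by omega
    have e2 : (k + 2 * t + 1) / 2 = (k + 1) / 2 + t := by omega
    have d1 : t ∣ k + 2 * t ↔ t ∣ k := Nat.dvd_add_left (Dvd.intro_left 2 rfl)
    have d2 : t ∣ k / 2 + t ↔ t ∣ k / 2 := Nat.dvd_add_left (dvd_refl t)
    have d3 : t ∣ (k + 1) / 2 + t ↔ t ∣ (k + 1) / 2 := Nat.dvd_add_left (dvd_refl t)
    rw [e0]
    unfold Bc
    simp only [e1, e2, d1, d2, d3]
    rcases Nat.eq_zero_or_pos k with hk | hk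
    · subst hk
      have d4 : t ∣ 0 := dvd_zero t
      have d5 : t ∣ 0 / 2 := by simp
      simp only [d4, not_true, and_false, if_false]
      rw [if_neg (show ¬ ((0 + 2 * t) % 2 = 0 ∧ 2 ≤ 0 + 2 * t ∧ 0 + 2 * t + 2 ≤ 2 * t) by omega),
        if_neg (show ¬ (0 + 2 * t = t) by omega), if_neg (show ¬ (0 + 2 * t = 2 * t - 1) by omega),
        if_neg (show ¬ (0 + 2 * t = 2 * t + 1) by omega)]
      split_ifs <;> first | (exfalso; omega) | norm_num | tauto
    · have e3 : (k + 2 * t - 1) / 2 = (k - 1) / 2 + t := by omega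
      have d4 : t ∣ (k - 1) / 2 + t ↔ t ∣ (k - 1) / 2 := Nat.dvd_add_left (dvd_refl t)
      simp only [e3, d4]
      rcases Nat.eq_or_lt_of_le (show 1 ≤ k by omega) with hk1 | hk1
      · subst hk1
        have d5 : ¬ t ∣ 1 := by
          rw [dvd_small (by omega)]
          omega
        have d6 : t ∣ (1 - 1) / 2 := by simp
        have d7 : ¬ t ∣ (1 + 1) / 2 := by
          rw [dvd_small (by omega)]
          omega
        have d8 : t ∣ 1 / 2 := by simp
        simp only [d5, d6, not_true, not_false_iff, and_true, and_false, if_false]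
        rw [if_neg (show ¬ ((1 + 2 * t) % 2 = 0 ∧ 2 ≤ 1 + 2 * t ∧ 1 + 2 * t + 2 ≤ 2 * t) by omega),
          if_neg (show ¬ (1 + 2 * t = t) by omega), if_neg (show ¬ (1 + 2 * t = 2 * t - 1) by omega),
          if_pos (show 1 + 2 * t = 2 * t + 1 by omega), if_pos (show 2 ≤ 1 + 2 * t by omega)]
        norm_num
      · have c1 : (2 ≤ k + 2 * t ∧ ¬ t ∣ k) ↔ (2 ≤ k ∧ ¬ t ∣ k) := by
          constructor <;> rintro ⟨_, h⟩ <;> exact ⟨by omega, h⟩
        have c2 : ((k + 2 * t) % 2 = 1 ∧ 3 ≤ k + 2 * t ∧ ¬ t ∣ (k + 1) / 2 ∧ ¬ t ∣ (k - 1) / 2) ↔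
            (k % 2 = 1 ∧ 3 ≤ k ∧ ¬ t ∣ (k + 1) / 2 ∧ ¬ t ∣ (k - 1) / 2) := by
          constructor <;> rintro ⟨_, _, h⟩ <;> exact ⟨by omega, by omega, h⟩
        have c3 : ((k + 2 * t) % 2 = 0 ∧ 0 < k + 2 * t ∧ ¬ t ∣ k / 2) ↔
            (k % 2 = 0 ∧ 0 < k ∧ ¬ t ∣ k / 2) := by
          constructor <;> rintro ⟨_, _, h⟩ <;> exact ⟨by omega, by omega, h⟩
        simp only [c1, c2, c3]
        rw [if_neg (show ¬ ((k + 2 * t) % 2 = 0 ∧ 2 ≤ k + 2 * t ∧ k + 2 * t + 2 ≤ 2 * t) by omega),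
          if_neg (show ¬ (k + 2 * t = t) by omega), if_neg (show ¬ (k + 2 * t = 2 * t - 1) by omega),
          if_neg (show ¬ (k + 2 * t = 2 * t + 1) by omega)]
        ring

theorem mk_Bc {t : ℕ} (ht : 3 ≤ t) : PowerSeries.mk (Bc t) = bb t * I (2 * t) := by
  have h1 := Bc_series ht
  have h2 := I_mul (k := 2 * t) (by omega)
  rw [← h1]
  linear_combination (-(PowerSeries.mk (Bc t))) * h2

theorem b2_coeff {t n M : ℕ} (ht : 3 ≤ t) (hM : n ≤ M) :
    (b2 t n : ℚ) = coeff n (bb t * I (2 * t) * GA (AT t M)) := by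
  rw [b2_eq hM, ← mk_Bc ht, coeff_mul, coeff_mul]
  refine sum_congr rfl fun p hp => ?_
  rw [Finset.HasAntidiagonal.mem_antidiagonal] at hp
  rw [coeff_beta (by omega), coeff_mk]

/-- The replacement of parts. -/
theorem exists_f {t M a : ℕ} (ht : 3 ≤ t) (ha : a = if t = 3 then 5 else 3) :
    ∃ f : ℕ → ℕ, Set.InjOn f
      (((Icc 1 M).filter fun s => ¬ t ∣ s ∧ (t + 1) ∣ s ∧ s ≠ t + 1 : Finset ℕ) : Set ℕ) ∧
      ∀ y ∈ (Icc 1 M).filter (fun s => ¬ t ∣ s ∧ (t + 1) ∣ s ∧ s ≠ t + 1),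
        f y ∈ (Icc 1 M).filter (fun s => t ∣ s ∧ ¬ (t + 1) ∣ s ∧ s ≠ t) ∧ f y ≤ y ∧
          ((y - f y) % 2 = 0 ∨ a ≤ y - f y) := by
  have hex : ∀ y : ℕ, y ≠ 0 → ∃ e r, ¬ (t + 1) ∣ r ∧ y = (t + 1) ^ e * r := fun y hy =>
    Nat.exists_eq_pow_mul_and_not_dvd hy (t + 1) (by omega)
  choose! e r her using hex
  have hbase : ∀ y ∈ (Icc 1 M).filter (fun s => ¬ t ∣ s ∧ (t + 1) ∣ s ∧ s ≠ t + 1),
      ¬ (t + 1) ∣ r y ∧ y = (t + 1) ^ e y * r y ∧ 1 ≤ e y ∧ 1 ≤ r y ∧ ¬ t ∣ r y := by
    intro y hy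
    rw [mem_filter, mem_Icc] at hy
    obtain ⟨h1, h2⟩ := her y (by omega)
    have h4 : 1 ≤ r y := by
      rcases Nat.eq_zero_or_pos (r y) with h | h
      · rw [h] at h1
        exact absurd (dvd_zero _) h1
      · exact h
    refine ⟨h1, h2, ?_, h4, ?_⟩
    · rcases Nat.eq_zero_or_pos (e y) with h | h
      · rw [h, pow_zero, one_mul] at h2
        rw [← h2] at h1
        exact absurd hy.2.2.1 h1
      · exact h
    · intro h
      apply hy.2.1
      rw [h2]
      exact Dvd.dvd.mul_left h _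
  refine ⟨fun y => t ^ e y * r y, ?_, ?_⟩
  · intro x hx y hy hxy
    obtain ⟨_, h2, _, _, h5⟩ := hbase x (mem_coe.1 hx)
    obtain ⟨_, k2, _, _, k5⟩ := hbase y (mem_coe.1 hy)
    beta_reduce at hxy
    have key : ∀ p q u v : ℕ, t ^ p * u = t ^ q * v → ¬ t ∣ v → p ≤ q := by
      intro p q u v h hv
      by_contra hlt
      apply hv
      have e1 : p = q + 1 + (p - q - 1) := by omega
      rw [e1, pow_add, pow_succ, mul_assoc, mul_assoc] at h
      have h2 := Nat.eq_of_mul_eq_mul_left (pow_pos (by omega : 0 < t) q) h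
      exact ⟨_, h2.symm⟩
    have h6 := key _ _ _ _ hxy k5
    have h7 := key _ _ _ _ hxy.symm h5
    have h8 : e x = e y := le_antisymm h6 h7
    rw [h8] at hxy
    have h9 := Nat.eq_of_mul_eq_mul_left (pow_pos (by omega : 0 < t) _) hxy
    rw [h2, k2, h8, h9]
  · intro y hy
    obtain ⟨h1, h2, h3, h4, h5⟩ := hbase y hy
    rw [mem_filter, mem_Icc] at hy
    beta_reduce
    obtain ⟨E, hE⟩ : ∃ E, E = e y := ⟨_, rfl⟩
    obtain ⟨R, hR⟩ : ∃ R, R = r y := ⟨_, rfl⟩
    rw [← hE] at h2 h3 ⊢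
    rw [← hR] at h1 h2 h4 h5 ⊢
    have hle : t ^ E * R ≤ y := by
      rw [h2]
      exact Nat.mul_le_mul_right R (Nat.pow_le_pow_left (by omega) E)
    obtain ⟨E', rfl⟩ : ∃ E', E = E' + 1 := ⟨E - 1, by omega⟩
    have hpos : 1 ≤ t ^ (E' + 1) * R := Nat.mul_pos (pow_pos (by omega) _) (by omega)
    refine ⟨?_, hle, ?_⟩
    · rw [mem_filter, mem_Icc]
      refine ⟨⟨hpos, by omega⟩, ?_, ?_, ?_⟩
      · rw [pow_succ, mul_assoc]
        exact Dvd.dvd.mul_left (Dvd.intro _ rfl) _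
      · intro h
        apply h1
        have hco : Nat.Coprime (t + 1) (t ^ (E' + 1)) := by
          apply Nat.Coprime.pow_right
          rw [Nat.coprime_comm]
          exact (Nat.coprime_self_add_right).2 (Nat.coprime_one_right t)
        exact hco.dvd_of_dvd_mul_left h
      · intro h
        have h6 : t ^ E' * R = 1 := by
          have h7 : t * (t ^ E' * R) = t * 1 := by
            rw [mul_one, ← mul_assoc, ← pow_succ', h]
          exact Nat.eq_of_mul_eq_mul_left (by omega) h7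
        have h8 := Nat.eq_one_of_mul_eq_one_left h6
        have h9 := Nat.eq_one_of_mul_eq_one_right h6
        have h10 : E' = 0 := by
          rcases Nat.eq_zero_or_pos E' with h | h
          · exact h
          · have : t ^ 1 ≤ t ^ E' := Nat.pow_le_pow_right (by omega) h
            rw [h9, pow_one] at this
            omega
        rw [h10, h8] at h2
        apply hy.2.2.2
        rw [h2]
        ring
    · rcases Nat.eq_zero_or_pos E' with h | h
      · subst h
        have e1 : y - t ^ (0 + 1) * R = R := by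
          rw [h2, zero_add, pow_one, pow_one]
          have : (t + 1) * R = t * R + R := by ring
          omega
        rw [e1]
        have h6 : R ≠ 1 := by
          rintro rfl
          apply hy.2.2.2
          rw [h2]
          ring
        by_cases h7 : R % 2 = 0
        · exact Or.inl h7
        · right
          rw [ha]
          split_ifs with h8
          · subst h8
            have h9 : R ≠ 3 := by
              rintro rfl
              exact h5 (dvd_refl 3)
            omega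
          · omega
      · right
        obtain ⟨G, rfl⟩ : ∃ G, E' = G + 1 := ⟨E' - 1, by omega⟩
        have h6 : t ^ (G + 1) + 1 ≤ (t + 1) ^ (G + 1) := by
          have h7 : t ^ (G + 1) < (t + 1) ^ (G + 1) := Nat.pow_lt_pow_left (by omega) (by omega)
          omega
        have h7 : t ^ (G + 1 + 1) + 2 * t + 1 ≤ (t + 1) ^ (G + 1 + 1) := by
          have h8 : (t + 1) ^ (G + 1 + 1) = (t + 1) ^ (G + 1) * t + (t + 1) ^ (G + 1) := by
            rw [pow_succ]; ring
          have h9 : (t ^ (G + 1) + 1) * t ≤ (t + 1) ^ (G + 1) * t := Nat.mul_le_mul_right t h6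
          have h10 : (t ^ (G + 1) + 1) * t = t ^ (G + 1 + 1) + t := by rw [pow_succ]; ring
          have h11 : t ≤ t ^ (G + 1) := by
            calc t = t ^ 1 := (pow_one t).symm
              _ ≤ t ^ (G + 1) := Nat.pow_le_pow_right (by omega) (by omega)
          omega
        have h8 : (t ^ (G + 1 + 1) + 2 * t + 1) * R ≤ y := by
          rw [h2]
          exact Nat.mul_le_mul_right R h7
        have h9 : (t ^ (G + 1 + 1) + 2 * t + 1) * R = t ^ (G + 1 + 1) * R + (2 * t + 1) * R := by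
          ring
        have h10 : (2 * t + 1) * 1 ≤ (2 * t + 1) * R := Nat.mul_le_mul_left _ h4
        have h11 : a ≤ 5 := by
          rw [ha]
          split_ifs <;> omega
        omega

theorem I_double {k : ℕ} (hk : k ≠ 0) : I k = (1 + X ^ k) * I (2 * k) := by
  have h1 := I_mul hk
  have h2 := I_mul (k := 2 * k) (by omega)
  have e : (X ^ (2 * k) : PowerSeries ℚ) = X ^ k * X ^ k := by
    rw [← pow_add]; congr 1; ring
  rw [e] at h2
  linear_combination (-(I k)) * h2 + ((1 + X ^ k) * I (2 * k)) * h1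

/-- The main inequality of series. -/
theorem main_ineq {t M : ℕ} (ht : 3 ≤ t) (hM : t + 5 ≤ M) :
    NN (bb (t + 1) * I (2 * (t + 1)) * GA (AT (t + 1) M) - bb t * I (2 * t) * GA (AT t M)) := by
  classical
  obtain ⟨a, ha⟩ : ∃ a, a = if t = 3 then 5 else 3 := ⟨_, rfl⟩
  have haodd : a % 2 = 1 := by rw [ha]; split_ifs <;> rfl
  have ha5 : a ≤ 5 := by rw [ha]; split_ifs <;> omega
  have ha3 : 3 ≤ a := by rw [ha]; split_ifs <;> omega
  obtain ⟨f, hf1, hf2⟩ := exists_f (M := M) ht ha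
  set Rs := (Icc 1 M).filter (fun s => ¬ t ∣ s ∧ ¬ (t + 1) ∣ s) with hRs
  set Y := (Icc 1 M).filter (fun s => ¬ t ∣ s ∧ (t + 1) ∣ s ∧ s ≠ t + 1) with hY
  set Xs := (Icc 1 M).filter (fun s => t ∣ s ∧ ¬ (t + 1) ∣ s ∧ s ≠ t) with hXs
  have hmR : ∀ s, s ∈ Rs ↔ (1 ≤ s ∧ s ≤ M) ∧ ¬ t ∣ s ∧ ¬ (t + 1) ∣ s := by
    intro s; rw [hRs, mem_filter, mem_Icc]
  have hmY : ∀ s, s ∈ Y ↔ (1 ≤ s ∧ s ≤ M) ∧ ¬ t ∣ s ∧ (t + 1) ∣ s ∧ s ≠ t + 1 := by
    intro s; rw [hY, mem_filter, mem_Icc]
  have hmX : ∀ s, s ∈ Xs ↔ (1 ≤ s ∧ s ≤ M) ∧ t ∣ s ∧ ¬ (t + 1) ∣ s ∧ s ≠ t := by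
    intro s; rw [hXs, mem_filter, mem_Icc]
  have hnd1 : ¬ t ∣ t + 1 := by
    intro h
    have := (Nat.dvd_add_right (dvd_refl t)).1 h
    have := Nat.le_of_dvd one_pos this
    omega
  have hnd2 : ¬ (t + 1) ∣ t := by
    intro h
    have := Nat.le_of_dvd (by omega) h
    omega
  -- the products
  have hA1 : GA (AT t M) = (∏ s ∈ Rs, I s) * (∏ s ∈ Y, I s) * I (t + 1) := by
    rw [GA_prod (zero_notMem_AT t M)]
    have e : AT t M = insert (t + 1) (Rs ∪ Y) := by
      ext s
      rw [mem_AT, mem_insert, mem_union, hmR, hmY]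
      constructor
      · rintro ⟨h1, h2⟩
        by_cases h3 : s = t + 1
        · exact Or.inl h3
        · right
          by_cases h4 : (t + 1) ∣ s
          · exact Or.inr ⟨h1, h2, h4, h3⟩
          · exact Or.inl ⟨h1, h2, h4⟩
      · rintro (rfl | h | h)
        · exact ⟨⟨by omega, by omega⟩, hnd1⟩
        · exact ⟨h.1, h.2.1⟩
        · exact ⟨h.1, h.2.1⟩
    rw [e, prod_insert, prod_union]
    · ring
    · rw [Finset.disjoint_left]
      intro s h1 h2
      rw [hmR] at h1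
      rw [hmY] at h2
      exact h1.2.2 h2.2.2.1
    · rw [mem_union, hmR, hmY]
      rintro (h | h)
      · exact h.2.2 (dvd_refl _)
      · exact h.2.2.2 rfl
  have hA2 : GA (AT (t + 1) M) = (∏ s ∈ Rs, I s) * (∏ s ∈ Xs, I s) * I t := by
    rw [GA_prod (zero_notMem_AT (t + 1) M)]
    have e : AT (t + 1) M = insert t (Rs ∪ Xs) := by
      ext s
      rw [mem_AT, mem_insert, mem_union, hmR, hmX]
      constructor
      · rintro ⟨h1, h2⟩
        by_cases h3 : s = t
        · exact Or.inl h3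
        · right
          by_cases h4 : t ∣ s
          · exact Or.inr ⟨h1, h4, h2, h3⟩
          · exact Or.inl ⟨h1, h4, h2⟩
      · rintro (rfl | h | h)
        · exact ⟨⟨by omega, by omega⟩, hnd2⟩
        · exact ⟨h.1, h.2.2⟩
        · exact ⟨h.1, h.2.2.1⟩
    rw [e, prod_insert, prod_union]
    · ring
    · rw [Finset.disjoint_left]
      intro s h1 h2
      rw [hmR] at h1
      rw [hmX] at h2
      exact h1.2.1 h2.2.1
    · rw [mem_union, hmR, hmX]
      rintro (h | h)
      · exact h.2.1 (dvd_refl _)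
      · exact h.2.2.2 rfl
  have hR1 : 1 ∈ Rs := by
    rw [hmR, dvd_small (by omega), dvd_small (by omega)]
    omega
  have hR2 : 2 ∈ Rs := by
    rw [hmR, dvd_small (by omega), dvd_small (by omega)]
    omega
  have hRa : a ∈ Rs := by
    rw [hmR]
    refine ⟨⟨by omega, by omega⟩, ?_⟩
    rw [ha]
    split_ifs with h
    · subst h
      decide
    · rw [dvd_small (by omega), dvd_small (by omega)]
      omega
  have hRprod : (∏ s ∈ Rs, I s) = I 1 * (I 2 * I a) * ∏ s ∈ ((Rs.erase 1).erase 2).erase a, I s := by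
    rw [← Finset.mul_prod_erase Rs _ hR1, ← Finset.mul_prod_erase (Rs.erase 1) _ (a := 2)
      (by rw [mem_erase]; exact ⟨by omega, hR2⟩),
      ← Finset.mul_prod_erase ((Rs.erase 1).erase 2) _ (a := a)
      (by rw [mem_erase, mem_erase]; exact ⟨by omega, by omega, hRa⟩)]
    ring
  set PR := ∏ s ∈ ((Rs.erase 1).erase 2).erase a, I s with hPR
  have hPRn : NN PR := by
    rw [hPR]
    refine NN.prod _ _ fun s hs => NN_I ?_
    have := (hmR s).1 (mem_of_mem_erase (mem_of_mem_erase (mem_of_mem_erase hs)))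
    omega
  set PX := ∏ s ∈ Xs, I s with hPX
  have hPXn : NN PX := by
    rw [hPX]
    refine NN.prod _ _ fun s hs => NN_I ?_
    have := (hmX s).1 hs
    omega
  set PY := ∏ s ∈ Y, I s with hPY
  -- the difference of the products
  have hW : NN (I 2 * I a * (PX - PY)) := by
    have h1 := exchange haodd f Y (by
      intro y hy
      obtain ⟨h2, h3, h4⟩ := hf2 y hy
      rw [hmX] at h2
      exact ⟨by omega, h3, h4⟩)
    have h2 : (∏ y ∈ Y, I (f y)) = ∏ x ∈ Y.image f, I x := by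
      rw [prod_image]
      exact hf1
    have hsub : Y.image f ⊆ Xs := by
      intro x hx
      rw [mem_image] at hx
      obtain ⟨y, hy, rfl⟩ := hx
      exact (hf2 y hy).1
    have h3 : PX = (∏ x ∈ Xs \ Y.image f, I x) * ∏ x ∈ Y.image f, I x := by
      rw [hPX, Finset.prod_sdiff hsub]
    have h4 : I 2 * I a * (PX - PY) = I 2 * I a * ((∏ y ∈ Y, I (f y)) - PY) +
        I 2 * I a * (∏ y ∈ Y, I (f y)) * ((∏ x ∈ Xs \ Y.image f, I x) - 1) := by
      rw [h3, ← h2]
      ring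
    rw [h4]
    refine h1.add (NN.mul (NN.mul ((NN_I two_ne_zero).mul (NN_I (by omega))) ?_) ?_)
    · refine NN.prod _ _ fun y hy => NN_I ?_
      have := (hmX _).1 (hf2 y hy).1
      omega
    · apply NN.prod_sub_one
      intro x hx
      have h5 := (hmX x).1 (mem_sdiff.1 hx).1
      exact NN.geom_sub_one (by omega)
  -- assemble
  have hkey := key (t := t) (by omega)
  have i1 := I_double (k := 1) one_ne_zero
  have it := I_double (k := t) (by omega)
  have it1 := I_double (k := t + 1) (by omega)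
  have e : bb (t + 1) * I (2 * (t + 1)) * GA (AT (t + 1) M) - bb t * I (2 * t) * GA (AT t M) =
      X ^ t * (Br t * (I 2 * I a)) * (I 2 * I (2 * t) * I (2 * (t + 1)) * (PR * PX)) +
      (I 1 * bb t) * (I (2 * t) * I (t + 1) * PR) * (I 2 * I a * (PX - PY)) := by
    rw [hA1, hA2, hRprod]
    have h1 : bb (t + 1) * I (2 * (t + 1)) * I 1 * I t - bb t * I (2 * t) * I 1 * I (t + 1) =
        X ^ t * Br t * (I 2 * I (2 * t) * I (2 * (t + 1))) := by
      have i1' : I 1 = (1 + X) * I 2 := by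
        rw [i1, pow_one]
      rw [← hkey, i1', it, it1]
      have e2 : 2 * (t + 1) = 2 * (t + 1) := rfl
      ring
    linear_combination (I 2 * I a * PR * PX) * h1
  rw [e]
  refine NN.add (NN.mul ((NN.X_pow t).mul (NN_Br haodd ?_)) ?_) (NN.mul (NN.mul (NN_bb ht) ?_) hW)
  · rw [ha]
    split_ifs with h
    · left
      omega
    · right
      omega
  · exact (((NN_I two_ne_zero).mul (NN_I (by omega))).mul (NN_I (by omega))).mul (hPRn.mul hPXn)
  · exact ((NN_I (by omega)).mul (NN_I (by omega))).mul hPRn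

theorem final (t n : ℕ) (ht : 3 ≤ t) : b2 t n ≤ b2 (t + 1) n := by
  have h1 := b2_coeff (t := t) (n := n) (M := n + t + 5) ht (by omega)
  have h2 := b2_coeff (t := t + 1) (n := n) (M := n + t + 5) (by omega) (by omega)
  have h3 := main_ineq (M := n + t + 5) ht (by omega) n
  rw [map_sub, ← h1, ← h2] at h3
  have h4 : (b2 t n : ℚ) ≤ b2 (t + 1) n := by linarith
  exact_mod_cast h4

end Q155.HookT
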