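import Pool.Agent.Q155.HookT.Count

open Finset PowerSeries

namespace Q155.HookT

open Q155.QI

/-- `1/(1 - q^k)` -/
noncomputable def I (k : ℕ) : PowerSeries ℚ := (1 - X ^ k)⁻¹

theorem I_mul {k : ℕ} (hk : k ≠ 0) : (1 - X ^ k) * I k = 1 := one_sub_mul_inv hk

theorem NN_I {k : ℕ} (hk : k ≠ 0) : NN (I k) := NN.geom hk

theorem one_sub_mul (r i : ℕ) : (1 - X ^ (r * i) : PowerSeries ℚ) = (1 - X ^ r) * gs r i :=
  (gs_mul r i).symm

/-- `(1 - q^(r i))/(1 - q^r)` has nonnegative coefficients. -/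
theorem NN_quot {r : ℕ} (hr : r ≠ 0) (i : ℕ) : NN ((1 - X ^ (r * i)) * I r) := by
  have : (1 - X ^ (r * i)) * I r = gs r i := by
    rw [one_sub_mul]
    calc (1 - X ^ r) * gs r i * I r = ((1 - X ^ r) * I r) * gs r i := by ring
      _ = gs r i := by rw [I_mul hr, one_mul]
  rw [this]
  exact NN_gs r i

/-- `(1 - q^l)/((1 - q^2)(1 - q^a))` has nonnegative coefficients if `l` is even, or `l ≥ a`
with `a` odd. -/
theorem NN_two {a l : ℕ} (ha : a % 2 = 1) (hl : l % 2 = 0 ∨ a ≤ l) :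
    NN ((1 - X ^ l) * (I 2 * I a)) := by
  rcases Nat.mod_two_eq_zero_or_one l with h | h
  · obtain ⟨i, rfl⟩ : ∃ i, l = 2 * i := ⟨l / 2, by omega⟩
    rw [← mul_assoc]
    exact (NN_quot two_ne_zero i).mul (NN_I (by omega))
  · obtain ⟨i, rfl⟩ : ∃ i, l = a + 2 * i := ⟨(l - a) / 2, by omega⟩
    have e : (1 - X ^ (a + 2 * i)) * (I 2 * I a) =
        I 2 + X ^ a * (((1 - X ^ (2 * i)) * I 2) * I a) := by
      have h1 := I_mul (k := a) (by omega)
      rw [pow_add]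
      linear_combination (I 2) * h1
    rw [e]
    exact (NN_I two_ne_zero).add
      ((NN.X_pow a).mul ((NN_quot two_ne_zero i).mul (NN_I (by omega))))

theorem NN_two' {a l : ℕ} (ha : a % 2 = 1) (hl : l % 2 = 0 ∨ a ≤ l) {K : PowerSeries ℚ}
    (hK : NN K) : NN ((1 - X ^ l) * (I 2 * I a) * K) := (NN_two ha hl).mul hK

/-- Replacing parts by smaller ones. -/
theorem exchange {a : ℕ} (ha : a % 2 = 1) (f : ℕ → ℕ) (Y : Finset ℕ)
    (hY : ∀ y ∈ Y, 0 < f y ∧ f y ≤ y ∧ ((y - f y) % 2 = 0 ∨ a ≤ y - f y)) :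
    NN (I 2 * I a * (∏ y ∈ Y, I (f y) - ∏ y ∈ Y, I y)) := by
  classical
  induction Y using Finset.induction_on with
  | empty => simpa using NN.zero
  | insert y Y hy ih =>
    have h1 := ih fun z hz => hY z (mem_insert_of_mem hz)
    obtain ⟨h2, h3, h4⟩ := hY y (mem_insert_self _ _)
    rw [prod_insert hy, prod_insert hy]
    have hfy := I_mul (k := f y) (by omega)
    have hyy := I_mul (k := y) (by omega)
    have e : I 2 * I a * (I (f y) * ∏ y ∈ Y, I (f y) - I y * ∏ y ∈ Y, I y) =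
        I y * (I 2 * I a * (∏ y ∈ Y, I (f y) - ∏ y ∈ Y, I y)) +
          (1 - X ^ (y - f y)) * (I 2 * I a) * (X ^ f y * I (f y) * I y * ∏ y ∈ Y, I (f y)) := by
      have h5 : (X ^ f y * X ^ (y - f y) : PowerSeries ℚ) = X ^ y := by
        rw [← pow_add]
        congr 1
        omega
      linear_combination (I 2 * I a * (∏ y ∈ Y, I (f y)) * I y) * hfy
        - (I 2 * I a * (∏ y ∈ Y, I (f y)) * I (f y)) * hyy
        + (I 2 * I a * I (f y) * I y * ∏ y ∈ Y, I (f y)) * h5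
    rw [e]
    refine ((NN_I (by omega)).mul h1).add (NN_two' ha h4 ?_)
    exact (((NN.X_pow _).mul (NN_I (by omega))).mul (NN_I (by omega))).mul
      (NN.prod _ _ fun z hz => NN_I (by have := (hY z (mem_insert_of_mem hz)).1; omega))

theorem NN_GA {A : Finset ℕ} (hA : 0 ∉ A) : NN (GA A) := by
  rw [GA_eq A hA]
  exact NN.prod _ _ fun a ha => NN.geom (by rintro rfl; exact hA ha)

theorem GA_prod {A : Finset ℕ} (hA : 0 ∉ A) : GA A = ∏ a ∈ A, I a := GA_eq A hA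

theorem GA_erase {A : Finset ℕ} (hA : 0 ∉ A) {a : ℕ} (ha : a ∈ A) :
    GA A = I a * GA (A.erase a) := by
  have h0 : 0 ∉ A.erase a := fun h => hA (mem_of_mem_erase h)
  rw [GA_prod hA, GA_prod h0, Finset.mul_prod_erase A _ ha]

/-- The numerator of `B_t`, with `t = u + 1`. -/
noncomputable def bb (t : ℕ) : PowerSeries ℚ :=
  2 * (X ^ 2 * gs 2 (t - 1)) - X ^ t + X ^ (2 * t - 1) + X ^ (2 * t + 1)

theorem NN_bb {t : ℕ} (ht : 3 ≤ t) : NN (I 1 * bb t) := by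
  obtain ⟨u, rfl⟩ : ∃ u, t = u + 3 := ⟨t - 3, by omega⟩
  have e1 : u + 3 - 1 = u + 2 := by omega
  have e2 : gs 2 (u + 2) = 1 + X ^ 2 * gs 2 (u + 1) := by
    unfold gs
    rw [sum_range_succ', mul_sum, add_comm, mul_zero, pow_zero]
    congr 1
    refine sum_congr rfl fun i _ => ?_
    rw [← pow_add]
    congr 1
    ring
  have e3 : (X ^ (u + 3) : PowerSeries ℚ) = X ^ 2 * X ^ (1 * (u + 1)) := by
    rw [← pow_add]
    congr 1
    ring
  have e : I 1 * bb (u + 3) = I 1 * X ^ 2 + X ^ 2 * ((1 - X ^ (1 * (u + 1))) * I 1) +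
      I 1 * (2 * (X ^ 4 * gs 2 (u + 1)) + X ^ (2 * (u + 3) - 1) + X ^ (2 * (u + 3) + 1)) := by
    unfold bb
    rw [e1, e2, e3]
    ring
  rw [e]
  have h2 : NN (2 : PowerSeries ℚ) := by
    have : (2 : PowerSeries ℚ) = 1 + 1 := by norm_num
    rw [this]
    exact NN.one.add NN.one
  refine (((NN_I one_ne_zero).mul (NN.X_pow 2)).add ((NN.X_pow 2).mul
    (NN_quot one_ne_zero _))).add ((NN_I one_ne_zero).mul ?_)
  exact ((h2.mul ((NN.X_pow 4).mul (NN_gs _ _))).add (NN.X_pow _)).add (NN.X_pow _)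

/-- The polynomial `Br`, with `Z = q^(t-1)`. -/
noncomputable def Br (t : ℕ) : PowerSeries ℚ :=
  (1 - X ^ (t - 1)) + X ^ 2 * (1 - X ^ (2 * (t - 1))) +
    (X ^ t + 2 * X ^ (t + 1) + X ^ (t + 3) + X ^ (t + 4) + 2 * X ^ (2 * t + 1) + X ^ (2 * t + 4))

theorem NN_Br {a t : ℕ} (ha : a % 2 = 1) (ht : (t - 1) % 2 = 0 ∨ a ≤ t - 1) :
    NN (Br t * (I 2 * I a)) := by
  have e : Br t * (I 2 * I a) = (1 - X ^ (t - 1)) * (I 2 * I a) +
      X ^ 2 * ((1 - X ^ (2 * (t - 1))) * (I 2 * I a)) +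
      (X ^ t + 2 * X ^ (t + 1) + X ^ (t + 3) + X ^ (t + 4) + 2 * X ^ (2 * t + 1) +
        X ^ (2 * t + 4)) * (I 2 * I a) := by
    unfold Br
    ring
  rw [e]
  have h2 : NN (2 : PowerSeries ℚ) := by
    have : (2 : PowerSeries ℚ) = 1 + 1 := by norm_num
    rw [this]
    exact NN.one.add NN.one
  refine ((NN_two ha ht).add ((NN.X_pow 2).mul (NN_two ha (Or.inl (by omega))))).add ?_
  refine NN.mul ?_ ((NN_I two_ne_zero).mul (NN_I (by omega)))
  exact (((((NN.X_pow _).add (h2.mul (NN.X_pow _))).add (NN.X_pow _)).add (NN.X_pow _)).add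
    (h2.mul (NN.X_pow _))).add (NN.X_pow _)

theorem gs_two (n : ℕ) : (1 - X ^ 2) * gs 2 n = 1 - X ^ (2 * n) := gs_mul 2 n

/-- The algebraic identity. -/
theorem key {t : ℕ} (ht : 1 ≤ t) :
    (1 + X) * ((1 + X ^ t) * bb (t + 1) - (1 + X ^ (t + 1)) * bb t) = X ^ t * Br t := by
  obtain ⟨u, rfl⟩ : ∃ u, t = u + 1 := ⟨t - 1, by omega⟩
  have g1 := gs_two u
  have g2 := gs_two (u + 1)
  have e1 : u + 1 - 1 = u := by omega
  have e2 : u + 1 + 1 - 1 = u + 1 := by omega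
  have p1 : (X ^ (2 * u) : PowerSeries ℚ) = (X ^ u) ^ 2 := by rw [← pow_mul, mul_comm]
  have p2 : (X ^ (2 * (u + 1)) : PowerSeries ℚ) = (X ^ u) ^ 2 * X ^ 2 := by
    rw [← pow_mul, ← pow_add]; congr 1; ring
  have p3 : (X ^ (2 * (u + 1) - 1) : PowerSeries ℚ) = (X ^ u) ^ 2 * X := by
    rw [← pow_mul, ← pow_succ]; congr 1; omega
  have p4 : (X ^ (2 * (u + 1) + 1) : PowerSeries ℚ) = (X ^ u) ^ 2 * X ^ 3 := by
    rw [← pow_mul, ← pow_add]; congr 1; ring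
  have p5 : (X ^ (2 * (u + 1 + 1) - 1) : PowerSeries ℚ) = (X ^ u) ^ 2 * X ^ 3 := by
    rw [← pow_mul, ← pow_add]; congr 1; omega
  have p6 : (X ^ (2 * (u + 1 + 1) + 1) : PowerSeries ℚ) = (X ^ u) ^ 2 * X ^ 5 := by
    rw [← pow_mul, ← pow_add]; congr 1; ring
  have p7 : (X ^ (2 * (u + 1) + 4) : PowerSeries ℚ) = (X ^ u) ^ 2 * X ^ 6 := by
    rw [← pow_mul, ← pow_add]; congr 1; ring
  have p8 : (X ^ (u + 1) : PowerSeries ℚ) = X ^ u * X := pow_succ _ _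
  have p9 : (X ^ (u + 1 + 1) : PowerSeries ℚ) = X ^ u * X ^ 2 := by rw [← pow_add]
  have p10 : (X ^ (u + 1 + 3) : PowerSeries ℚ) = X ^ u * X ^ 4 := by rw [← pow_add]
  have p11 : (X ^ (u + 1 + 4) : PowerSeries ℚ) = X ^ u * X ^ 5 := by rw [← pow_add]
  have hne : (1 - X ^ 2 : PowerSeries ℚ) ≠ 0 := ne_zero_of_one_sub two_ne_zero
  apply mul_left_cancel₀ hne
  unfold bb Br
  rw [e1, e2, p3, p4, p5, p6, p7, p8, p9, p10, p11, p1]
  rw [p1] at g1
  rw [p2] at g2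
  linear_combination (2 * (1 + X) * (1 + X ^ u * X) * X ^ 2) * g2
    - (2 * (1 + X) * (1 + X ^ u * X ^ 2) * X ^ 2) * g1

end Q155.HookT
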